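import Mathlib
import Pool.Agent.Helper71.TVE.Tree
import Pool.Agent.Helper71.TVS.Lower

/-!
# Tverberg numbers of trees in every dimension

Let `d ≥ 2` and `k = d / 2` (rounded down). In `ℝ ^ d` a leaf at a node with many leaves costs `k + 1 + ε` points,
every other node `d + 1` points. The moment curve shows that `k + 1` points per node are needed. So
`Tv(T, d) = (k + 1 + o(1)) n` for all trees with `n` nodes of which `o(n)` are inner nodes.

Lower bound: on the moment curve every set of at most `k` points is a face, so every part has at least `k + 1`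
points; in odd dimension two parts with `k + 1` points are disjoint, so the parts with more points form a vertex
cover.

Upper bound: the tree of the inner nodes is placed as in the general theorem (Radon's theorem with an anchor, cuts
by convex sets with convex complement); the part of the inner node `v` gets a slab of prescribed size that lies
apart from all other parts. The star of the leaves at `v` is found in the slab, in rounds. In a set `Y` let `o` be a
centre point, `B` a small set whose hull contains all points of depth `ε |Y|`, and take a ray from `o`. Peel sets off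
the hull of `Y`: the last point of the ray in the hull of the rest lies in a face; if a subset of at most `k + 1`
of its vertices has a point of depth `ε |Y|` in its hull, it meets the hull of `B`, is disjoint from the hull of the
rest, and is taken as a leaf. Otherwise there is a subset `σ` of more than `k + 1` vertices with a deep point in its
hull, all of whose facets are contained in half-spaces with few points. Then every set outside these half-spaces
that meets the affine hull of `σ` meets the hull of `σ`, and by Caratheodory's theorem there are many such sets of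
at most `d + 2 - |σ| ≤ d - k` points: `σ` goes to the centre, these sets are leaves.
-/

set_option autoImplicit false

open Finset

namespace Pool.Agent.Results.MP_92efc2_co.AllDimensions

/-- No `d + 1` points of `S` lie on a common affine hyperplane `a ⬝ x = b`, `a ≠ 0`. -/
def GeneralPosition {d : ℕ} (S : Finset (Fin d → ℝ)) : Prop :=
  ∀ A ⊆ S, A.card = d + 1 → ¬ ∃ (a : Fin d → ℝ) (b : ℝ), a ≠ 0 ∧ ∀ x ∈ A, ∑ i, a i * x i = b

/-- `P 0, ..., P (m - 1)` is a partition of `S` into nonempty parts. -/
structure IsPartition {d m : ℕ} (S : Finset (Fin d → ℝ)) (P : Fin m → Finset (Fin d → ℝ)) : Prop where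
  nonempty : ∀ i, (P i).Nonempty
  disjoint : ∀ i j, i ≠ j → Disjoint (P i) (P j)
  cover : ∀ x, x ∈ S ↔ ∃ i, x ∈ P i

/-- The faces of the nerve: the sets `I` such that the convex hulls of the parts `P i`, `i ∈ I`, have
a common point. -/
def IsNerveFace {d m : ℕ} (P : Fin m → Finset (Fin d → ℝ)) (I : Finset (Fin m)) : Prop :=
  (⋂ i ∈ I, convexHull ℝ (P i : Set (Fin d → ℝ))).Nonempty

/-- The faces of a graph, as a complex of dimension at most one: the empty set, the vertices, the edges. -/
def IsGraphFace {V : Type} (T : SimpleGraph V) (I : Finset V) : Prop :=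
  I.card ≤ 1 ∨ ∃ u v, T.Adj u v ∧ (I : Set V) = {u, v}

/-- Some partition of `S` has a nerve isomorphic to the graph `T`. -/
def PartitionInduced {d : ℕ} {V : Type} (T : SimpleGraph V) (S : Finset (Fin d → ℝ)) : Prop :=
  ∃ (m : ℕ) (P : Fin m → Finset (Fin d → ℝ)) (e : Fin m ≃ V), IsPartition S P ∧
    ∀ I : Finset (Fin m), IsNerveFace P I ↔ IsGraphFace T (I.map e.toEmbedding)

/-- The Tverberg number: the least `c` such that `T` is partition induced on every set of more than
`c` points of `ℝ ^ d` in general position. -/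
noncomputable def tverbergNumber {V : Type} (T : SimpleGraph V) (d : ℕ) : ℕ :=
  sInf {c | ∀ S : Finset (Fin d → ℝ), GeneralPosition S → c < S.card → PartitionInduced T S}

/-- The inner nodes: the nodes with at least two neighbours. -/
def innerNodes {V : Type} (T : SimpleGraph V) : Set V :=
  {v | ∃ a b, a ≠ b ∧ T.Adj v a ∧ T.Adj v b}

/-- The leaves (nodes that are not inner) whose neighbour has at least `L` leaves. -/
def crowdedLeaves {V : Type} (T : SimpleGraph V) (L : ℕ) : Set V :=
  {u | u ∉ innerNodes T ∧ ∃ v, T.Adj u v ∧ L ≤ {x | x ∉ innerNodes T ∧ T.Adj x v}.ncard}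

/-- `X` is a vertex cover: it contains an end of every edge. -/
def IsCover {V : Type} (T : SimpleGraph V) (X : Finset V) : Prop :=
  ∀ u v, T.Adj u v → u ∈ X ∨ v ∈ X

theorem genPos {d : ℕ} {S : Finset (Fin d → ℝ)} (h : GeneralPosition S) : Pool.Agent.Helper71.TVS.GP d S := by
  intro A hA hc φ b hφ hall
  refine h A hA hc ⟨fun i => φ (Pi.single i 1), b, ?_, fun x hx => ?_⟩
  · intro h0
    apply hφ
    apply LinearMap.pi_ext'
    intro i
    apply LinearMap.ext_ring
    simpa using congrFun h0 i
  · rw [← hall x hx, LinearMap.pi_apply_eq_sum_univ φ x]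
    apply Finset.sum_congr rfl
    intro i _
    have h1 : (Pi.single i (1 : ℝ) : Fin d → ℝ) = fun j => if i = j then 1 else 0 := by
      ext j
      by_cases hij : i = j
      · subst hij
        simp
      · rw [Pi.single_eq_of_ne (Ne.symm hij), if_neg hij]
    show φ (Pi.single i (1 : ℝ)) * x i = x i • φ fun j => if i = j then 1 else 0
    rw [← h1, smul_eq_mul, mul_comm]

/-- a partition with the pairwise pattern of a tree induces the tree -/
theorem induced_of_pairs {d : ℕ} {V : Type} [Fintype V] {T : SimpleGraph V} (hT : T.IsTree)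
    {S : Finset (Fin d → ℝ)} (P : V → Finset (Fin d → ℝ)) (h1 : ∀ i, (P i).Nonempty)
    (h2 : ∀ i i', i ≠ i' → Disjoint (P i) (P i')) (h3 : ∀ x, x ∈ S ↔ ∃ i, x ∈ P i)
    (h4 : ∀ i i', i ≠ i' → (Pool.Agent.Helper71.TVS.Meet (P i) (P i') ↔ T.Adj i i')) :
    PartitionInduced T S := by
  classical
  let e : Fin (Fintype.card V) ≃ V := (Fintype.equivFin V).symm
  have hmeet : ∀ i j, i ≠ j → ((convexHull ℝ (P (e i) : Set (Fin d → ℝ)) ∩
      convexHull ℝ (P (e j) : Set (Fin d → ℝ))).Nonempty ↔ T.Adj (e i) (e j)) := fun i j hij =>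
    h4 (e i) (e j) (fun h => hij (e.injective h))
  refine ⟨Fintype.card V, fun i => P (e i), e, ⟨fun i => h1 _, fun i j hij => h2 _ _ (fun h => hij (e.injective h)),
    ?_⟩, ?_⟩
  · intro x
    rw [h3 x]
    constructor
    · rintro ⟨v, hv⟩
      exact ⟨e.symm v, by rwa [Equiv.apply_symm_apply]⟩
    · rintro ⟨i, hi⟩
      exact ⟨e i, hi⟩
  · intro I
    constructor
    · rintro ⟨z, hz⟩
      rw [Set.mem_iInter₂] at hz
      by_cases hI : I.card ≤ 1
      · left
        rw [card_map]
        exact hI
      · right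
        obtain ⟨i, hi, j, hj, hij⟩ := one_lt_card.1 (not_le.1 hI)
        have hadj : ∀ a ∈ I, ∀ b ∈ I, a ≠ b → T.Adj (e a) (e b) := fun a ha b hb hab =>
          (hmeet a b hab).1 ⟨z, hz a ha, hz b hb⟩
        refine ⟨e i, e j, hadj i hi j hj hij, ?_⟩
        ext v
        simp only [coe_map, Equiv.coe_toEmbedding, Set.mem_image, mem_coe, Set.mem_insert_iff, Set.mem_singleton_iff]
        constructor
        · rintro ⟨k, hk, rfl⟩
          by_contra hcon
          rw [not_or] at hcon
          have hki : k ≠ i := fun h => hcon.1 (by rw [h])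
          have hkj : k ≠ j := fun h => hcon.2 (by rw [h])
          refine hT.isAcyclic.cliqueFree le_rfl {e k, e i, e j} ?_
          rw [SimpleGraph.is3Clique_triple_iff]
          exact ⟨hadj k hk i hi hki, hadj k hk j hj hkj, hadj i hi j hj hij⟩
        · rintro (rfl | rfl)
          · exact ⟨i, hi, rfl⟩
          · exact ⟨j, hj, rfl⟩
    · rintro (hI | ⟨u, v, huv, hI⟩)
      · rw [card_map] at hI
        rcases Nat.le_one_iff_eq_zero_or_eq_one.1 hI with h0 | h0
        · rw [card_eq_zero] at h0
          subst h0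
          exact ⟨0, by simp⟩
        · obtain ⟨i, rfl⟩ := card_eq_one.1 h0
          obtain ⟨x, hx⟩ := h1 (e i)
          exact ⟨x, by simpa using subset_convexHull ℝ _ (mem_coe.2 hx)⟩
      · have hmem : ∀ k, k ∈ I ↔ e k = u ∨ e k = v := by
          intro k
          have := Set.ext_iff.1 hI (e k)
          simpa using this
        have huv' : e.symm u ≠ e.symm v := fun h => huv.ne (e.symm.injective h)
        obtain ⟨z, hz, hz'⟩ := (hmeet (e.symm u) (e.symm v) huv').2 (by simpa using huv)
        rw [Equiv.apply_symm_apply] at hz hz'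
        refine ⟨z, Set.mem_iInter₂.2 fun k hk => ?_⟩
        rcases (hmem k).1 hk with h | h
        · show z ∈ convexHull ℝ (P (e k) : Set (Fin d → ℝ))
          rw [h]
          exact hz
        · show z ∈ convexHull ℝ (P (e k) : Set (Fin d → ℝ))
          rw [h]
          exact hz'

/-- the tree is not induced on `(k + 1) n - 1` points of the moment curve -/
theorem not_induced {d k : ℕ} (hk : 1 ≤ k) (hkd : 2 * k ≤ d) {V : Type} [Fintype V] {T : SimpleGraph V}
    (hT : T.IsTree) (hV : 2 ≤ Fintype.card V) :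
    ¬ PartitionInduced T (Pool.Agent.Helper71.TVS.momSet d ((k + 1) * Fintype.card V - 1)) := by
  classical
  rintro ⟨m, P, e, ⟨h1, h2, h3⟩, h4⟩
  have hsub : ∀ i, P i ⊆ Pool.Agent.Helper71.TVS.momSet d ((k + 1) * Fintype.card V - 1) :=
    fun i x hx => (h3 x).2 ⟨i, hx⟩
  have hmeet : ∀ i j, i ≠ j → T.Adj (e i) (e j) → Pool.Agent.Helper71.TVS.Meet (P i) (P j) := by
    intro i j hij hadj
    obtain ⟨z, hz⟩ := (h4 {i, j}).2 (Or.inr ⟨e i, e j, hadj, by simp⟩)
    rw [Set.mem_iInter₂] at hz
    exact ⟨z, hz i (by simp), hz j (by simp)⟩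
  have hlarge : ∀ i, k + 1 ≤ (P i).card := by
    intro i
    by_contra hcon
    obtain ⟨a, ha⟩ := Pool.Agent.Helper71.TVW.exists_nbr hT.connected hV (e i)
    have hij : i ≠ e.symm a := by
      rintro rfl
      rw [Equiv.apply_symm_apply] at ha
      exact ha.ne rfl
    exact Pool.Agent.Helper71.TVS.small_face (k := k) (by omega) hkd (hsub i) (hsub (e.symm a))
      (h2 i _ hij) (by omega) (hmeet i _ hij (by rwa [Equiv.apply_symm_apply]))
  have hsum : ∑ i, (P i).card = (k + 1) * Fintype.card V - 1 := by
    rw [← card_biUnion (fun i _ j _ hij => h2 i j hij)]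
    have : univ.biUnion P = Pool.Agent.Helper71.TVS.momSet d ((k + 1) * Fintype.card V - 1) := by
      ext x
      rw [mem_biUnion, h3 x]
      simp
    rw [this, Pool.Agent.Helper71.TVS.card_momSet (by omega)]
  have hm : m = Fintype.card V := by
    have := Fintype.card_congr e
    rwa [Fintype.card_fin] at this
  have hge : (k + 1) * m ≤ ∑ i, (P i).card := by
    have a1 : (k + 1) * m = ∑ _i : Fin m, (k + 1) := by
      rw [sum_const, card_univ, Fintype.card_fin, smul_eq_mul, mul_comm]
    rw [a1]
    exact sum_le_sum fun i _ => hlarge i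
  have hpos : 1 ≤ (k + 1) * Fintype.card V := Nat.mul_pos (by omega) (by omega)
  rw [hsum, hm] at hge
  omega

/-- odd dimension: the tree is not induced on some points of the moment curve -/
theorem not_induced_odd (k : ℕ) {V : Type} [Fintype V] {T : SimpleGraph V} (hT : T.IsTree) (t : ℕ)
    (ht : ∀ X : Finset V, IsCover T X → t < X.card) :
    ¬ PartitionInduced T (Pool.Agent.Helper71.TVS.momSet (2 * k + 1) ((k + 1) * Fintype.card V + t)) := by
  classical
  rintro ⟨m, P, e, ⟨h1, h2, h3⟩, h4⟩
  have hV : 2 ≤ Fintype.card V := by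
    by_contra hcon
    have hss : Subsingleton V := Fintype.card_le_one_iff_subsingleton.1 (by omega)
    have := ht ∅ (fun u v h => absurd (Subsingleton.elim u v) h.ne)
    simp at this
  have hsub : ∀ i, P i ⊆ Pool.Agent.Helper71.TVS.momSet (2 * k + 1) ((k + 1) * Fintype.card V + t) :=
    fun i x hx => (h3 x).2 ⟨i, hx⟩
  have hmeet : ∀ i j, i ≠ j → T.Adj (e i) (e j) → Pool.Agent.Helper71.TVS.Meet (P i) (P j) := by
    intro i j hij hadj
    obtain ⟨z, hz⟩ := (h4 {i, j}).2 (Or.inr ⟨e i, e j, hadj, by simp⟩)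
    rw [Set.mem_iInter₂] at hz
    exact ⟨z, hz i (by simp), hz j (by simp)⟩
  have hlarge : ∀ i, k + 1 ≤ (P i).card := by
    intro i
    by_contra hcon
    obtain ⟨a, ha⟩ := Pool.Agent.Helper71.TVW.exists_nbr hT.connected hV (e i)
    have hij : i ≠ e.symm a := by
      rintro rfl
      rw [Equiv.apply_symm_apply] at ha
      exact ha.ne rfl
    exact Pool.Agent.Helper71.TVS.small_face (k := k) (by omega) (by omega) (hsub i) (hsub (e.symm a))
      (h2 i _ hij) (by omega) (hmeet i _ hij (by rwa [Equiv.apply_symm_apply]))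
  have hGP : GeneralPosition (Pool.Agent.Helper71.TVS.momSet (2 * k + 1) ((k + 1) * Fintype.card V + t)) :=
    Pool.Agent.Helper71.TVS.genPos_mom (by omega) _
  set X : Finset V := univ.filter (fun v => k + 2 ≤ (P (e.symm v)).card) with hX
  have hcov : IsCover T X := by
    intro u v huv
    by_contra hcon
    rw [not_or] at hcon
    have hu : (P (e.symm u)).card = k + 1 := by
      have a1 := hlarge (e.symm u)
      have a2 : ¬ k + 2 ≤ (P (e.symm u)).card := fun h => hcon.1 (mem_filter.2 ⟨mem_univ _, h⟩)
      omega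
    have hv : (P (e.symm v)).card = k + 1 := by
      have a1 := hlarge (e.symm v)
      have a2 : ¬ k + 2 ≤ (P (e.symm v)).card := fun h => hcon.2 (mem_filter.2 ⟨mem_univ _, h⟩)
      omega
    have hij : e.symm u ≠ e.symm v := fun h => huv.ne (e.symm.injective h)
    refine Pool.Agent.Helper71.TVS.not_meet_of_GP (by simp) (genPos hGP) (hsub _) (hsub _) (h2 _ _ hij) ?_
      (hmeet _ _ hij (by simpa using huv))
    rw [hu, hv]
    ring
  have hsum : ∑ i, (P i).card = (k + 1) * Fintype.card V + t := by
    rw [← card_biUnion (fun i _ j _ hij => h2 i j hij)]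
    have : univ.biUnion P = Pool.Agent.Helper71.TVS.momSet (2 * k + 1) ((k + 1) * Fintype.card V + t) := by
      ext x
      rw [mem_biUnion, h3 x]
      simp
    rw [this, Pool.Agent.Helper71.TVS.card_momSet (by omega)]
  have hsum' : ∑ v, (P (e.symm v)).card = (k + 1) * Fintype.card V + t := by
    rw [← hsum]
    exact Equiv.sum_comp e.symm (fun i => (P i).card)
  have hge : (k + 1) * Fintype.card V + X.card ≤ ∑ v, (P (e.symm v)).card := by
    have a1 : (k + 1) * Fintype.card V + X.card = ∑ v : V, ((k + 1) + if k + 2 ≤ (P (e.symm v)).card then 1 else 0) := by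
      rw [sum_add_distrib, sum_const, card_univ, smul_eq_mul, hX, card_filter]
      ring
    rw [a1]
    refine sum_le_sum fun v _ => ?_
    have a2 := hlarge (e.symm v)
    split_ifs with h
    · omega
    · omega
  have := ht X hcov
  omega

/-- every tree is induced on all large sets (the general theorem) -/
theorem induced_large {d : ℕ} (hd : 2 ≤ d) {V : Type} [Fintype V] {T : SimpleGraph V} (hT : T.IsTree)
    (S : Finset (Fin d → ℝ)) (hS : GeneralPosition S) (hc : (d + 1) * (Fintype.card V - 1) + 1 ≤ S.card) :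
    PartitionInduced T S := by
  classical
  obtain ⟨c, h1, h2⟩ := Pool.Agent.Helper33.TVT.tree_labels (E := Fin d → ℝ) (d := d) (by simp) hd hT
    (genPos hS) hc
  refine induced_of_pairs hT (fun v => S.filter (fun x => c x = v)) ?_ ?_ ?_ ?_
  · intro v
    obtain ⟨x, hx, hx'⟩ := h1 v
    exact ⟨x, mem_filter.2 ⟨hx, hx'⟩⟩
  · intro u v huv
    rw [disjoint_left]
    intro x hx hx'
    exact huv ((mem_filter.1 hx).2.symm.trans (mem_filter.1 hx').2)
  · intro x
    constructor
    · intro hx
      exact ⟨c x, mem_filter.2 ⟨hx, rfl⟩⟩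
    · rintro ⟨v, hv⟩
      exact (mem_filter.1 hv).1
  · intro u v huv
    have h3 : ∀ w : V, ((S.filter (fun x => c x = w) : Finset (Fin d → ℝ)) : Set (Fin d → ℝ)) =
        {x | x ∈ S ∧ c x = w} := by
      intro w
      ext x
      simp
    have h4 := h2 u v huv
    rw [← h3 u, ← h3 v] at h4
    exact h4

/-- **The Tverberg numbers of trees in every dimension `d ≥ 2`.** -/
theorem result (d : ℕ) (hd : 2 ≤ d) :
    (∀ (V : Type) [Fintype V] (T : SimpleGraph V), T.IsTree → 2 ≤ Fintype.card V →
      (∃ S : Finset (Fin d → ℝ), GeneralPosition S ∧ S.card + 1 = (d / 2 + 1) * Fintype.card V ∧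
        ¬ PartitionInduced T S) ∧
      (d / 2 + 1) * Fintype.card V ≤ tverbergNumber T d + 1 ∧
      (Odd d → ∀ t : ℕ, (∀ X : Finset V, IsCover T X → t < X.card) →
        (∃ S : Finset (Fin d → ℝ), GeneralPosition S ∧ S.card = (d / 2 + 1) * Fintype.card V + t ∧
          ¬ PartitionInduced T S) ∧
        (d / 2 + 1) * Fintype.card V + t ≤ tverbergNumber T d)) ∧
    (∀ ε : ℝ, 0 < ε → ∃ L : ℕ, ∀ (V : Type) [Fintype V] (T : SimpleGraph V), T.IsTree →
      3 ≤ Fintype.card V →
      (∀ S : Finset (Fin d → ℝ), GeneralPosition S →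
        (((d / 2 : ℕ) : ℝ) + 1 + ε) * (crowdedLeaves T L).ncard +
          ((d : ℝ) + 1) * (Fintype.card V - (crowdedLeaves T L).ncard) ≤ S.card + d →
        PartitionInduced T S) ∧
      (tverbergNumber T d : ℝ) + d < (((d / 2 : ℕ) : ℝ) + 1 + ε) * (crowdedLeaves T L).ncard +
          ((d : ℝ) + 1) * (Fintype.card V - (crowdedLeaves T L).ncard) ∧
      Fintype.card V ≤ (crowdedLeaves T L).ncard + (L + 1) * (innerNodes T).ncard) ∧
    (∀ (V : ℕ → Type) [∀ m, Fintype (V m)] (T : ∀ m, SimpleGraph (V m)), (∀ m, (T m).IsTree) →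
      Filter.Tendsto (fun m => Fintype.card (V m)) Filter.atTop Filter.atTop →
      Filter.Tendsto (fun m => ((innerNodes (T m)).ncard : ℝ) / Fintype.card (V m)) Filter.atTop (nhds 0) →
      Filter.Tendsto (fun m => (tverbergNumber (T m) d : ℝ) / Fintype.card (V m)) Filter.atTop
        (nhds (((d / 2 : ℕ) : ℝ) + 1))) := by
  classical
  obtain ⟨k, hk⟩ : ∃ k, k = d / 2 := ⟨_, rfl⟩
  have hk1 : 1 ≤ k := by omega
  have hkd : 2 * k ≤ d := by omega
  have hkd' : d ≤ 2 * k + 1 := by omega
  rw [← hk]
  have hE : Module.finrank ℝ (Fin d → ℝ) = d := by simp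
  -- the set of the definition is not empty
  have hmem : ∀ (V : Type) [Fintype V] (T : SimpleGraph V), T.IsTree → ∀ S : Finset (Fin d → ℝ),
      GeneralPosition S → tverbergNumber T d < S.card → PartitionInduced T S := by
    intro V _ T hT
    have hne : ∃ c : ℕ, ∀ S : Finset (Fin d → ℝ), GeneralPosition S → c < S.card →
        PartitionInduced T S :=
      ⟨(d + 1) * (Fintype.card V - 1), fun S hS hc => induced_large hd hT S hS hc⟩
    exact Nat.sInf_mem hne
  have hlow : ∀ (V : Type) [Fintype V] (T : SimpleGraph V), T.IsTree → 2 ≤ Fintype.card V →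
      (∃ S : Finset (Fin d → ℝ), GeneralPosition S ∧ S.card + 1 = (k + 1) * Fintype.card V ∧
        ¬ PartitionInduced T S) ∧
      (k + 1) * Fintype.card V ≤ tverbergNumber T d + 1 ∧
      (Odd d → ∀ t : ℕ, (∀ X : Finset V, IsCover T X → t < X.card) →
        (∃ S : Finset (Fin d → ℝ), GeneralPosition S ∧ S.card = (k + 1) * Fintype.card V + t ∧
          ¬ PartitionInduced T S) ∧
        (k + 1) * Fintype.card V + t ≤ tverbergNumber T d) := by
    intro V _ T hT hV
    have hpos : 1 ≤ (k + 1) * Fintype.card V := Nat.mul_pos (by omega) (by omega)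
    have h1 : ∃ S : Finset (Fin d → ℝ), GeneralPosition S ∧ S.card + 1 = (k + 1) * Fintype.card V ∧
        ¬ PartitionInduced T S := by
      refine ⟨Pool.Agent.Helper71.TVS.momSet d ((k + 1) * Fintype.card V - 1),
        Pool.Agent.Helper71.TVS.genPos_mom (by omega) _, ?_, not_induced hk1 hkd hT hV⟩
      rw [Pool.Agent.Helper71.TVS.card_momSet (by omega)]
      omega
    refine ⟨h1, ?_, ?_⟩
    · by_contra hcon
      obtain ⟨S, hS, hc, hnot⟩ := h1
      exact hnot (hmem V T hT S hS (by omega))
    · intro hodd t ht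
      have hd' : d = 2 * k + 1 := by
        obtain ⟨r, hr⟩ := hodd
        omega
      subst hd'
      have hcs : (Pool.Agent.Helper71.TVS.momSet (2 * k + 1) ((k + 1) * Fintype.card V + t)).card =
          (k + 1) * Fintype.card V + t := Pool.Agent.Helper71.TVS.card_momSet (by omega) _
      refine ⟨⟨_, Pool.Agent.Helper71.TVS.genPos_mom (by omega) _, hcs, not_induced_odd k hT t ht⟩, ?_⟩
      by_contra hcon
      refine not_induced_odd k hT t ht (hmem V T hT _ (Pool.Agent.Helper71.TVS.genPos_mom (by omega) _) ?_)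
      rw [hcs]
      omega
  have hup : ∀ ε : ℝ, 0 < ε → ∃ L : ℕ, ∀ (V : Type) [Fintype V] (T : SimpleGraph V), T.IsTree →
      3 ≤ Fintype.card V →
      (∀ S : Finset (Fin d → ℝ), GeneralPosition S →
        ((k : ℝ) + 1 + ε) * (crowdedLeaves T L).ncard +
          ((d : ℝ) + 1) * (Fintype.card V - (crowdedLeaves T L).ncard) ≤ S.card + d →
        PartitionInduced T S) ∧
      (tverbergNumber T d : ℝ) + d < ((k : ℝ) + 1 + ε) * (crowdedLeaves T L).ncard +
          ((d : ℝ) + 1) * (Fintype.card V - (crowdedLeaves T L).ncard) ∧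
      Fintype.card V ≤ (crowdedLeaves T L).ncard + (L + 1) * (innerNodes T).ncard := by
    intro ε hε
    obtain ⟨L, hL⟩ := Pool.Agent.Helper71.TVE.tree_all hE hk1 hkd hkd' hε
    refine ⟨L, fun V _ T hT hV => ?_⟩
    have h1 : ∀ S : Finset (Fin d → ℝ), GeneralPosition S →
        ((k : ℝ) + 1 + ε) * (crowdedLeaves T L).ncard +
          ((d : ℝ) + 1) * (Fintype.card V - (crowdedLeaves T L).ncard) ≤ S.card + d →
        PartitionInduced T S := by
      intro S hS hc
      obtain ⟨P, p1, p2, p3, p4⟩ := hL V T hT hV S (genPos hS) hc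
      exact induced_of_pairs hT P p1 p2 p3 p4
    refine ⟨h1, ?_, Pool.Agent.Helper71.TVE.card_le_crowd hT hV L⟩
    set X : ℝ := ((k : ℝ) + 1 + ε) * (crowdedLeaves T L).ncard +
          ((d : ℝ) + 1) * (Fintype.card V - (crowdedLeaves T L).ncard) with hX
    have hbn : (crowdedLeaves T L).ncard ≤ Fintype.card V := by
      have := Set.ncard_le_ncard (Set.subset_univ (crowdedLeaves T L)) (Set.toFinite _)
      rwa [Set.ncard_univ, Nat.card_eq_fintype_card] at this
    -- `d < X`
    have hdX : (d : ℝ) < X := by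
      by_contra hcon
      -- otherwise the empty set would be induced
      obtain ⟨m, P, e, ⟨q1, -, q3⟩, -⟩ := h1 ∅ (fun A hA hc => by
        rw [subset_empty.1 hA, card_empty] at hc
        omega) (by
        rw [card_empty, Nat.cast_zero, zero_add]
        exact not_lt.1 hcon)
      have hm : m = Fintype.card V := by
        have := Fintype.card_congr e
        rwa [Fintype.card_fin] at this
      obtain ⟨x, hx⟩ := q1 ⟨0, by omega⟩
      exact absurd ((q3 x).2 ⟨_, hx⟩) (notMem_empty x)
    have h2 : tverbergNumber T d ≤ ⌈X - d⌉₊ - 1 := by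
      refine Nat.sInf_le fun S hS hc => h1 S hS ?_
      have h3 : ⌈X - d⌉₊ ≤ S.card := by omega
      have h4 := Nat.ceil_le.1 h3
      linarith
    have h3 : 0 < ⌈X - d⌉₊ := Nat.ceil_pos.2 (by linarith)
    have h4 : (⌈X - d⌉₊ : ℝ) < X - d + 1 := Nat.ceil_lt_add_one (by linarith)
    have h5 : (tverbergNumber T d : ℝ) + 1 ≤ (⌈X - d⌉₊ : ℝ) := by
      have : tverbergNumber T d + 1 ≤ ⌈X - d⌉₊ := by omega
      exact_mod_cast this
    linarith
  refine ⟨hlow, hup, ?_⟩
  intro V _ T hT hcard hinner
  rw [Metric.tendsto_atTop]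
  intro ε hε
  obtain ⟨L, hL⟩ := hup (ε / 2) (by positivity)
  have h0 : Filter.Tendsto (fun m => (Fintype.card (V m) : ℝ)) Filter.atTop Filter.atTop :=
    tendsto_natCast_atTop_atTop.comp hcard
  have h1 : Filter.Tendsto (fun m => ((d : ℝ) + 1) * ((L : ℝ) + 1) *
      (((innerNodes (T m)).ncard : ℝ) / Fintype.card (V m))) Filter.atTop (nhds 0) := by
    have := hinner.const_mul (((d : ℝ) + 1) * ((L : ℝ) + 1))
    rwa [mul_zero] at this
  obtain ⟨m₀, hm₀⟩ := Filter.eventually_atTop.1 (h1.eventually (gt_mem_nhds (show (0 : ℝ) < ε / 2 by positivity)))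
  obtain ⟨m₁, hm₁⟩ := Filter.eventually_atTop.1 (hcard.eventually (Filter.eventually_ge_atTop 3))
  obtain ⟨m₂, hm₂⟩ := Filter.eventually_atTop.1 (h0.eventually (Filter.eventually_gt_atTop (1 / ε)))
  refine ⟨max m₀ (max m₁ m₂), fun m hm => ?_⟩
  have hn := hm₁ m ((le_max_left _ _).trans ((le_max_right _ _).trans hm))
  have hi := hm₀ m ((le_max_left _ _).trans hm)
  have hN := hm₂ m ((le_max_right _ _).trans ((le_max_right _ _).trans hm))
  have hpos : (0 : ℝ) < Fintype.card (V m) := by
    have : 0 < Fintype.card (V m) := by omega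
    exact_mod_cast this
  have hl : ((k : ℝ) + 1) * Fintype.card (V m) ≤ tverbergNumber (T m) d + 1 := by
    exact_mod_cast (hlow (V m) (T m) (hT m) (by omega)).2.1
  obtain ⟨-, hu, hc⟩ := hL (V m) (T m) (hT m) hn
  have hc' : (Fintype.card (V m) : ℝ) ≤ (crowdedLeaves (T m) L).ncard + ((L : ℝ) + 1) * (innerNodes (T m)).ncard := by
    exact_mod_cast hc
  have hbn : ((crowdedLeaves (T m) L).ncard : ℝ) ≤ Fintype.card (V m) := by
    have := Set.ncard_le_ncard (Set.subset_univ (crowdedLeaves (T m) L)) (Set.toFinite _)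
    rw [Set.ncard_univ, Nat.card_eq_fintype_card] at this
    exact_mod_cast this
  have hi' : ((d : ℝ) + 1) * (((L : ℝ) + 1) * (innerNodes (T m)).ncard) < ε / 2 * Fintype.card (V m) := by
    have h4 := mul_lt_mul_of_pos_right hi hpos
    have h5 : ((d : ℝ) + 1) * ((L : ℝ) + 1) * (((innerNodes (T m)).ncard : ℝ) / Fintype.card (V m)) *
        Fintype.card (V m) = ((d : ℝ) + 1) * (((L : ℝ) + 1) * (innerNodes (T m)).ncard) := by
      field_simp
    rwa [h5] at h4
  have hN' : 1 < ε * Fintype.card (V m) := by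
    rwa [div_lt_iff₀ hε, mul_comm] at hN
  have hd0 : (0 : ℝ) ≤ (d : ℝ) := Nat.cast_nonneg _
  have hk0 : (0 : ℝ) ≤ (k : ℝ) := Nat.cast_nonneg _
  rw [Real.dist_eq, abs_lt]
  constructor
  · have : (k : ℝ) + 1 - ε < (tverbergNumber (T m) d : ℝ) / Fintype.card (V m) := by
      rw [lt_div_iff₀ hpos]
      nlinarith
    linarith
  · have : (tverbergNumber (T m) d : ℝ) / Fintype.card (V m) < (k : ℝ) + 1 + ε := by
      rw [div_lt_iff₀ hpos]
      have h6 : ((k : ℝ) + 1 + ε / 2) * (crowdedLeaves (T m) L).ncard ≤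
          ((k : ℝ) + 1 + ε / 2) * Fintype.card (V m) :=
        mul_le_mul_of_nonneg_left hbn (by positivity)
      have h7 : ((d : ℝ) + 1) * (Fintype.card (V m) - (crowdedLeaves (T m) L).ncard) ≤
          ((d : ℝ) + 1) * (((L : ℝ) + 1) * (innerNodes (T m)).ncard) :=
        mul_le_mul_of_nonneg_left (by linarith) (by positivity)
      nlinarith
    linarith

end Pool.Agent.Results.MP_92efc2_co.AllDimensions
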