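import Mathlib
import Pool.Agent.Helper71.TVP.Assemble
import Pool.Agent.Helper71.TVS.Lower

/-!
# Tverberg numbers of trees in the plane

Every tree `T` with `n ≥ 3` nodes, `i` inner nodes and `i'` inner nodes with a leaf at them is induced on every
set of at least `2n + i + i' - 2` points of the plane in general position. So `Tv(T, 2)` is `(2 + o(1)) n`
if `i = o(n)`.

Upper bound: the tree of the inner nodes is placed as in the general theorem, and the part of an inner node `v`
with `l > 0` leaves gets a slab of `2 l + 1` points apart from all other parts, behind a point `p` of the part.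
Seen from `p` the slab has a point `q` of median slope and `l` points on either side. The two sides are matched
by disjoint segments; these cross the ray from `p` through `q`. If the last crossing is before `q`, the point
`q` goes to the part of `v` and the `l` segments are the leaves. Otherwise the segment with the last crossing
goes to the part of `v`, and `{q}` and the other segments are the leaves.

Lower bound (known): the points of a parabola are in convex position, so every part has at least two points.
-/

set_option autoImplicit false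

open Finset

namespace Pool.Agent.Results.MP_92efc2_co.PlaneTrees

/-- No `d + 1` points of `S` lie on a common affine hyperplane `a ⬝ x = b`, `a ≠ 0`. -/
def GeneralPosition {d : ℕ} (S : Finset (Fin d → ℝ)) : Prop :=
  ∀ A ⊆ S, A.card = d + 1 → ¬ ∃ (a : Fin d → ℝ) (b : ℝ), a ≠ 0 ∧ ∀ x ∈ A, ∑ i, a i * x i = b

/-- `P 0, ..., P (m - 1)` is a partition of `S` into nonempty parts. -/
structure IsPartition {d m : ℕ} (S : Finset (Fin d → ℝ)) (P : Fin m → Finset (Fin d → ℝ)) : Prop where
  nonempty : ∀ i, (P i).Nonempty
  disjoint : ∀ i j, i ≠ j → Disjoint (P i) (P j)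
  cover : ∀ x, x ∈ S ↔ ∃ i, x ∈ P i

/-- The faces of the nerve: the sets `I` such that the convex hulls of the parts `P i`, `i ∈ I`, have
a common point. -/
def IsNerveFace {d m : ℕ} (P : Fin m → Finset (Fin d → ℝ)) (I : Finset (Fin m)) : Prop :=
  (⋂ i ∈ I, convexHull ℝ (P i : Set (Fin d → ℝ))).Nonempty

/-- The faces of a graph, as a complex of dimension at most one: the empty set, the vertices, the edges. -/
def IsGraphFace {V : Type} (T : SimpleGraph V) (I : Finset V) : Prop :=
  I.card ≤ 1 ∨ ∃ u v, T.Adj u v ∧ (I : Set V) = {u, v}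

/-- Some partition of `S` has a nerve isomorphic to the graph `T`. -/
def PartitionInduced {d : ℕ} {V : Type} (T : SimpleGraph V) (S : Finset (Fin d → ℝ)) : Prop :=
  ∃ (m : ℕ) (P : Fin m → Finset (Fin d → ℝ)) (e : Fin m ≃ V), IsPartition S P ∧
    ∀ I : Finset (Fin m), IsNerveFace P I ↔ IsGraphFace T (I.map e.toEmbedding)

/-- The Tverberg number: the least `c` such that `T` is partition induced on every set of more than
`c` points of `ℝ ^ d` in general position. -/
noncomputable def tverbergNumber {V : Type} (T : SimpleGraph V) (d : ℕ) : ℕ :=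
  sInf {c | ∀ S : Finset (Fin d → ℝ), GeneralPosition S → c < S.card → PartitionInduced T S}

/-- The inner nodes: the nodes with at least two neighbours. -/
def innerNodes {V : Type} (T : SimpleGraph V) : Set V :=
  {v | ∃ a b, a ≠ b ∧ T.Adj v a ∧ T.Adj v b}

/-- The inner nodes with a leaf at them: some neighbour is not an inner node. -/
def supportNodes {V : Type} (T : SimpleGraph V) : Set V :=
  {v | v ∈ innerNodes T ∧ ∃ u, T.Adj v u ∧ u ∉ innerNodes T}

theorem genPos {d : ℕ} {S : Finset (Fin d → ℝ)} (h : GeneralPosition S) : Pool.Agent.Helper71.TVS.GP d S := by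
  intro A hA hc φ b hφ hall
  refine h A hA hc ⟨fun i => φ (Pi.single i 1), b, ?_, fun x hx => ?_⟩
  · intro h0
    apply hφ
    apply LinearMap.pi_ext'
    intro i
    apply LinearMap.ext_ring
    simpa using congrFun h0 i
  · rw [← hall x hx, LinearMap.pi_apply_eq_sum_univ φ x]
    apply Finset.sum_congr rfl
    intro i _
    have h1 : (Pi.single i (1 : ℝ) : Fin d → ℝ) = fun j => if i = j then 1 else 0 := by
      ext j
      by_cases hij : i = j
      · subst hij
        simp
      · rw [Pi.single_eq_of_ne (Ne.symm hij), if_neg hij]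
    show φ (Pi.single i (1 : ℝ)) * x i = x i • φ fun j => if i = j then 1 else 0
    rw [← h1, smul_eq_mul, mul_comm]

/-- a partition with the pairwise pattern of a tree induces the tree -/
theorem induced_of_pairs {d : ℕ} {V : Type} [Fintype V] {T : SimpleGraph V} (hT : T.IsTree)
    {S : Finset (Fin d → ℝ)} (P : V → Finset (Fin d → ℝ)) (h1 : ∀ i, (P i).Nonempty)
    (h2 : ∀ i i', i ≠ i' → Disjoint (P i) (P i')) (h3 : ∀ x, x ∈ S ↔ ∃ i, x ∈ P i)
    (h4 : ∀ i i', i ≠ i' → (Pool.Agent.Helper71.TVS.Meet (P i) (P i') ↔ T.Adj i i')) :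
    PartitionInduced T S := by
  classical
  let e : Fin (Fintype.card V) ≃ V := (Fintype.equivFin V).symm
  have hmeet : ∀ i j, i ≠ j → ((convexHull ℝ (P (e i) : Set (Fin d → ℝ)) ∩
      convexHull ℝ (P (e j) : Set (Fin d → ℝ))).Nonempty ↔ T.Adj (e i) (e j)) := fun i j hij =>
    h4 (e i) (e j) (fun h => hij (e.injective h))
  refine ⟨Fintype.card V, fun i => P (e i), e, ⟨fun i => h1 _, fun i j hij => h2 _ _ (fun h => hij (e.injective h)),
    ?_⟩, ?_⟩
  · intro x
    rw [h3 x]
    constructor
    · rintro ⟨v, hv⟩
      exact ⟨e.symm v, by rwa [Equiv.apply_symm_apply]⟩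
    · rintro ⟨i, hi⟩
      exact ⟨e i, hi⟩
  · intro I
    constructor
    · rintro ⟨z, hz⟩
      rw [Set.mem_iInter₂] at hz
      by_cases hI : I.card ≤ 1
      · left
        rw [card_map]
        exact hI
      · right
        obtain ⟨i, hi, j, hj, hij⟩ := one_lt_card.1 (not_le.1 hI)
        have hadj : ∀ a ∈ I, ∀ b ∈ I, a ≠ b → T.Adj (e a) (e b) := fun a ha b hb hab =>
          (hmeet a b hab).1 ⟨z, hz a ha, hz b hb⟩
        refine ⟨e i, e j, hadj i hi j hj hij, ?_⟩
        ext v
        simp only [coe_map, Equiv.coe_toEmbedding, Set.mem_image, mem_coe, Set.mem_insert_iff, Set.mem_singleton_iff]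
        constructor
        · rintro ⟨k, hk, rfl⟩
          by_contra hcon
          rw [not_or] at hcon
          have hki : k ≠ i := fun h => hcon.1 (by rw [h])
          have hkj : k ≠ j := fun h => hcon.2 (by rw [h])
          refine hT.isAcyclic.cliqueFree le_rfl {e k, e i, e j} ?_
          rw [SimpleGraph.is3Clique_triple_iff]
          exact ⟨hadj k hk i hi hki, hadj k hk j hj hkj, hadj i hi j hj hij⟩
        · rintro (rfl | rfl)
          · exact ⟨i, hi, rfl⟩
          · exact ⟨j, hj, rfl⟩
    · rintro (hI | ⟨u, v, huv, hI⟩)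
      · rw [card_map] at hI
        rcases Nat.le_one_iff_eq_zero_or_eq_one.1 hI with h0 | h0
        · rw [card_eq_zero] at h0
          subst h0
          exact ⟨0, by simp⟩
        · obtain ⟨i, rfl⟩ := card_eq_one.1 h0
          obtain ⟨x, hx⟩ := h1 (e i)
          exact ⟨x, by simpa using subset_convexHull ℝ _ (mem_coe.2 hx)⟩
      · have hmem : ∀ k, k ∈ I ↔ e k = u ∨ e k = v := by
          intro k
          have := Set.ext_iff.1 hI (e k)
          simpa using this
        have huv' : e.symm u ≠ e.symm v := fun h => huv.ne (e.symm.injective h)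
        obtain ⟨z, hz, hz'⟩ := (hmeet (e.symm u) (e.symm v) huv').2 (by simpa using huv)
        rw [Equiv.apply_symm_apply] at hz hz'
        refine ⟨z, Set.mem_iInter₂.2 fun k hk => ?_⟩
        rcases (hmem k).1 hk with h | h
        · show z ∈ convexHull ℝ (P (e k) : Set (Fin d → ℝ))
          rw [h]
          exact hz
        · show z ∈ convexHull ℝ (P (e k) : Set (Fin d → ℝ))
          rw [h]
          exact hz'

/-- a tree is not induced on `2 n - 1` points of a parabola -/
theorem not_induced {V : Type} [Fintype V] {T : SimpleGraph V} (hT : T.IsTree) (hV : 2 ≤ Fintype.card V) :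
    ¬ PartitionInduced T (Pool.Agent.Helper71.TVS.momSet 2 (2 * Fintype.card V - 1)) := by
  classical
  rintro ⟨m, P, e, ⟨h1, h2, h3⟩, h4⟩
  have hsub : ∀ i, P i ⊆ Pool.Agent.Helper71.TVS.momSet 2 (2 * Fintype.card V - 1) :=
    fun i x hx => (h3 x).2 ⟨i, hx⟩
  have hmeet : ∀ i j, i ≠ j → T.Adj (e i) (e j) → Pool.Agent.Helper71.TVS.Meet (P i) (P j) := by
    intro i j hij hadj
    obtain ⟨z, hz⟩ := (h4 {i, j}).2 (Or.inr ⟨e i, e j, hadj, by simp⟩)
    rw [Set.mem_iInter₂] at hz
    exact ⟨z, hz i (by simp), hz j (by simp)⟩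
  have hlarge : ∀ i, 2 ≤ (P i).card := by
    intro i
    by_contra hcon
    obtain ⟨a, ha⟩ := Pool.Agent.Helper71.TVW.exists_nbr hT.connected hV (e i)
    have hij : i ≠ e.symm a := by
      rintro rfl
      rw [Equiv.apply_symm_apply] at ha
      exact ha.ne rfl
    exact Pool.Agent.Helper71.TVS.small_face (k := 1) (by omega) le_rfl (hsub i) (hsub (e.symm a))
      (h2 i _ hij) (by omega) (hmeet i _ hij (by rwa [Equiv.apply_symm_apply]))
  have hsum : ∑ i, (P i).card = 2 * Fintype.card V - 1 := by
    rw [← card_biUnion (fun i _ j _ hij => h2 i j hij)]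
    have : univ.biUnion P = Pool.Agent.Helper71.TVS.momSet 2 (2 * Fintype.card V - 1) := by
      ext x
      rw [mem_biUnion, h3 x]
      simp
    rw [this, Pool.Agent.Helper71.TVS.card_momSet (by omega)]
  have hm : m = Fintype.card V := by
    have := Fintype.card_congr e
    rwa [Fintype.card_fin] at this
  have hge : 2 * m ≤ ∑ i, (P i).card := by
    have a1 : 2 * m = ∑ _i : Fin m, 2 := by
      rw [sum_const, card_univ, Fintype.card_fin, smul_eq_mul, mul_comm]
    rw [a1]
    exact sum_le_sum fun i _ => hlarge i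
  rw [hsum, hm] at hge
  omega

/-- the nodes that are not inner nodes are at least as many as the inner nodes with a leaf at them -/
theorem card_support_le {V : Type} [Fintype V] {T : SimpleGraph V} :
    (innerNodes T).ncard + (supportNodes T).ncard ≤ Fintype.card V := by
  classical
  have h1 : (supportNodes T).ncard ≤ (innerNodes T)ᶜ.ncard := by
    choose! φ hφ using (fun v (hv : v ∈ supportNodes T) => hv.2)
    refine Set.ncard_le_ncard_of_injOn φ (fun v hv => (hφ v hv).2) ?_ (Set.toFinite _)
    intro v hv v' hv' h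
    have h2 := (hφ v hv).1.symm
    have h3 := (hφ v' hv').1.symm
    rw [← h] at h3
    exact Pool.Agent.Helper71.TVW.leaf_unique (hφ v hv).2 h2 h3
  have h2 := Set.ncard_add_ncard_compl (innerNodes T)
  rw [Nat.card_eq_fintype_card] at h2
  omega

/-- **The Tverberg numbers of trees in the plane.** -/
theorem result :
    (∀ (V : Type) [Fintype V] (T : SimpleGraph V), T.IsTree → 3 ≤ Fintype.card V →
      (∀ S : Finset (Fin 2 → ℝ), GeneralPosition S →
        2 * Fintype.card V + (innerNodes T).ncard + (supportNodes T).ncard ≤ S.card + 2 →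
        PartitionInduced T S) ∧
      2 * Fintype.card V ≤ tverbergNumber T 2 + 1 ∧
      tverbergNumber T 2 + 3 ≤ 2 * Fintype.card V + (innerNodes T).ncard + (supportNodes T).ncard ∧
      (innerNodes T).ncard + (supportNodes T).ncard ≤ Fintype.card V) ∧
    (∀ (V : ℕ → Type) [∀ m, Fintype (V m)] (T : ∀ m, SimpleGraph (V m)), (∀ m, (T m).IsTree) →
      Filter.Tendsto (fun m => Fintype.card (V m)) Filter.atTop Filter.atTop →
      Filter.Tendsto (fun m => ((innerNodes (T m)).ncard : ℝ) / Fintype.card (V m)) Filter.atTop (nhds 0) →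
      Filter.Tendsto (fun m => (tverbergNumber (T m) 2 : ℝ) / Fintype.card (V m)) Filter.atTop (nhds 2)) := by
  classical
  have key : ∀ (V : Type) [Fintype V] (T : SimpleGraph V), T.IsTree → 3 ≤ Fintype.card V →
      (∀ S : Finset (Fin 2 → ℝ), GeneralPosition S →
        2 * Fintype.card V + (innerNodes T).ncard + (supportNodes T).ncard ≤ S.card + 2 →
        PartitionInduced T S) ∧
      2 * Fintype.card V ≤ tverbergNumber T 2 + 1 ∧
      tverbergNumber T 2 + 3 ≤ 2 * Fintype.card V + (innerNodes T).ncard + (supportNodes T).ncard ∧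
      (innerNodes T).ncard + (supportNodes T).ncard ≤ Fintype.card V := by
    intro V _ T hT hV
    have h1 : ∀ S : Finset (Fin 2 → ℝ), GeneralPosition S →
        2 * Fintype.card V + (innerNodes T).ncard + (supportNodes T).ncard ≤ S.card + 2 →
        PartitionInduced T S := by
      intro S hS hc
      obtain ⟨P, p1, p2, p3, p4⟩ := Pool.Agent.Helper71.TVP.tree_plane (E := Fin 2 → ℝ) (by simp) hT hV
        (genPos hS) hc
      exact induced_of_pairs hT P p1 p2 p3 p4
    -- the set of the definition is not empty
    have hne : ∃ c : ℕ, ∀ S : Finset (Fin 2 → ℝ), GeneralPosition S → c < S.card → PartitionInduced T S :=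
      ⟨2 * Fintype.card V + (innerNodes T).ncard + (supportNodes T).ncard, fun S hS hc => h1 S hS (by omega)⟩
    have hmem : ∀ S : Finset (Fin 2 → ℝ), GeneralPosition S → tverbergNumber T 2 < S.card →
        PartitionInduced T S := Nat.sInf_mem hne
    refine ⟨h1, ?_, ?_, card_support_le⟩
    · by_contra hcon
      refine not_induced hT (by omega) (hmem _ (Pool.Agent.Helper71.TVS.genPos_mom (by omega) _) ?_)
      rw [Pool.Agent.Helper71.TVS.card_momSet (by omega)]
      omega
    · have h2 : tverbergNumber T 2 ≤
          2 * Fintype.card V + (innerNodes T).ncard + (supportNodes T).ncard - 3 :=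
        Nat.sInf_le fun S hS hc => h1 S hS (by omega)
      omega
  refine ⟨key, ?_⟩
  intro V _ T hT hcard hinner
  rw [Metric.tendsto_atTop]
  intro ε hε
  have h0 : Filter.Tendsto (fun m => (Fintype.card (V m) : ℝ)) Filter.atTop Filter.atTop :=
    tendsto_natCast_atTop_atTop.comp hcard
  obtain ⟨m₀, hm₀⟩ := Filter.eventually_atTop.1 (hinner.eventually (gt_mem_nhds (show (0 : ℝ) < ε / 2 by positivity)))
  obtain ⟨m₁, hm₁⟩ := Filter.eventually_atTop.1 (hcard.eventually (Filter.eventually_ge_atTop 3))
  obtain ⟨m₂, hm₂⟩ := Filter.eventually_atTop.1 (h0.eventually (Filter.eventually_gt_atTop (1 / ε)))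
  refine ⟨max m₀ (max m₁ m₂), fun m hm => ?_⟩
  have hn := hm₁ m ((le_max_left _ _).trans ((le_max_right _ _).trans hm))
  have hi := hm₀ m ((le_max_left _ _).trans hm)
  have hN := hm₂ m ((le_max_right _ _).trans ((le_max_right _ _).trans hm))
  have hpos : (0 : ℝ) < Fintype.card (V m) := by
    have : 0 < Fintype.card (V m) := by omega
    exact_mod_cast this
  obtain ⟨-, hl', hu', -⟩ := key (V m) (T m) (hT m) hn
  have hl : (2 : ℝ) * Fintype.card (V m) ≤ tverbergNumber (T m) 2 + 1 := by
    exact_mod_cast hl'
  have hu : (tverbergNumber (T m) 2 : ℝ) ≤ 2 * Fintype.card (V m) + 2 * (innerNodes (T m)).ncard := by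
    have h2 : (supportNodes (T m)).ncard ≤ (innerNodes (T m)).ncard :=
      Set.ncard_le_ncard (fun v hv => hv.1) (Set.toFinite _)
    have h3 : tverbergNumber (T m) 2 ≤ 2 * Fintype.card (V m) + 2 * (innerNodes (T m)).ncard := by omega
    exact_mod_cast h3
  have hN' : 1 < ε * Fintype.card (V m) := by
    rwa [div_lt_iff₀ hε, mul_comm] at hN
  have hi' : 2 * ((innerNodes (T m)).ncard : ℝ) < ε * Fintype.card (V m) := by
    rw [div_lt_iff₀ hpos] at hi
    linarith
  rw [Real.dist_eq, abs_lt]
  constructor
  · have : 2 - ε < (tverbergNumber (T m) 2 : ℝ) / Fintype.card (V m) := by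
      rw [lt_div_iff₀ hpos]
      nlinarith
    linarith
  · have : (tverbergNumber (T m) 2 : ℝ) / Fintype.card (V m) < 2 + ε := by
      rw [div_lt_iff₀ hpos]
      nlinarith
    linarith

end Pool.Agent.Results.MP_92efc2_co.PlaneTrees
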