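import Mathlib
import Pool.Agent.Helper33.TVT.Main

/-!
# Tverberg numbers of trees: `Tv(T, d) ≤ (d + 1) (n - 1) + 1` for every tree

Let `T` be a tree with `n` nodes, `d ≥ 2`, and let `S` be a set of at least `(d + 1) (n - 1) + 1` points of
`ℝ ^ d`, no `d + 1` of them on a hyperplane. Then `S` has a partition whose nerve is `T`. This was known
for caterpillars; for general trees the known bounds were Ramsey numbers.

Idea of the proof. Order the points by a generic linear functional `f`. A rooted forest is placed on near
points, exactly `d + 1` for every root, and far points, at least `d + 1` for every other vertex, all near points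
before all far points, given one point `q` (the anchor) of the part of the parent. If there are two roots
or more, one subtree is cut off by a convex set with convex complement, which contains exactly the
prescribed numbers of near and of far points (a ham-sandwich cut of two separated sets, by an intermediate
value argument in a generic plane). For one root, Radon's theorem for `q` and the `d + 1` near points: the
side of `q` is given to the parent, the other side (it is not empty) to the root, so that their hulls meet; the
root continues with the far points, the first `d + 1` per child of which are the new near points. Hulls of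
vertices in different subtrees of siblings lie in disjoint convex sets; hulls of a vertex and of its
descendants, except for its children, are separated by a level set of `f`.
-/

set_option autoImplicit false

open Finset

namespace Pool.Agent.Results.MP_92efc2_co.Trees

/-- No `d + 1` points of `S` lie on a common affine hyperplane `a ⬝ x = b`, `a ≠ 0`. -/
def GeneralPosition {d : ℕ} (S : Finset (Fin d → ℝ)) : Prop :=
  ∀ A ⊆ S, A.card = d + 1 → ¬ ∃ (a : Fin d → ℝ) (b : ℝ), a ≠ 0 ∧ ∀ x ∈ A, ∑ i, a i * x i = b

/-- `P 0, ..., P (m - 1)` is a partition of `S` into nonempty parts. -/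
structure IsPartition {d m : ℕ} (S : Finset (Fin d → ℝ)) (P : Fin m → Finset (Fin d → ℝ)) : Prop where
  nonempty : ∀ i, (P i).Nonempty
  disjoint : ∀ i j, i ≠ j → Disjoint (P i) (P j)
  cover : ∀ x, x ∈ S ↔ ∃ i, x ∈ P i

/-- The faces of the nerve: the sets `I` such that the convex hulls of the parts `P i`, `i ∈ I`, have
a common point. -/
def IsNerveFace {d m : ℕ} (P : Fin m → Finset (Fin d → ℝ)) (I : Finset (Fin m)) : Prop :=
  (⋂ i ∈ I, convexHull ℝ (P i : Set (Fin d → ℝ))).Nonempty

/-- The faces of a graph, as a complex of dimension at most one: the empty set, the vertices, the edges. -/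
def IsGraphFace {V : Type} (T : SimpleGraph V) (I : Finset V) : Prop :=
  I.card ≤ 1 ∨ ∃ u v, T.Adj u v ∧ (I : Set V) = {u, v}

/-- Some partition of `S` has a nerve isomorphic to the graph `T`. -/
def PartitionInduced {d : ℕ} {V : Type} (T : SimpleGraph V) (S : Finset (Fin d → ℝ)) : Prop :=
  ∃ (m : ℕ) (P : Fin m → Finset (Fin d → ℝ)) (e : Fin m ≃ V), IsPartition S P ∧
    ∀ I : Finset (Fin m), IsNerveFace P I ↔ IsGraphFace T (I.map e.toEmbedding)

/-- The Tverberg number: the least `c` such that `T` is partition induced on every set of more than
`c` points of `ℝ ^ d` in general position. -/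
noncomputable def tverbergNumber {V : Type} (T : SimpleGraph V) (d : ℕ) : ℕ :=
  sInf {c | ∀ S : Finset (Fin d → ℝ), GeneralPosition S → c < S.card → PartitionInduced T S}

theorem genPos {d : ℕ} {S : Finset (Fin d → ℝ)} (h : GeneralPosition S) : Pool.Agent.Helper33.TVT.GenPos d S := by
  intro A hA hc φ b hφ hall
  refine h A hA hc ⟨fun i => φ (Pi.single i 1), b, ?_, fun x hx => ?_⟩
  · intro h0
    apply hφ
    apply LinearMap.pi_ext'
    intro i
    apply LinearMap.ext_ring
    simpa using congrFun h0 i
  · rw [← hall x hx, LinearMap.pi_apply_eq_sum_univ φ x]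
    apply Finset.sum_congr rfl
    intro i _
    have h1 : (Pi.single i (1 : ℝ) : Fin d → ℝ) = fun j => if i = j then 1 else 0 := by
      ext j
      by_cases hij : i = j
      · subst hij
        simp
      · rw [Pi.single_eq_of_ne (Ne.symm hij), if_neg hij]
    show φ (Pi.single i (1 : ℝ)) * x i = x i • φ fun j => if i = j then 1 else 0
    rw [← h1, smul_eq_mul, mul_comm]

/-- **The Tverberg number of every tree is at most `(d + 1) (n - 1) + 1`.** Every set of at least
`(d + 1) (n - 1) + 1` points of `ℝ ^ d` in general position, `d ≥ 2`, has a partition with nerve `T`. -/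
theorem result {V : Type} [Fintype V] (T : SimpleGraph V) (hT : T.IsTree) {d : ℕ} (hd : 2 ≤ d) :
    (∀ S : Finset (Fin d → ℝ), GeneralPosition S → (d + 1) * (Fintype.card V - 1) + 1 ≤ S.card →
      PartitionInduced T S) ∧
    tverbergNumber T d ≤ (d + 1) * (Fintype.card V - 1) + 1 := by
  classical
  have main : ∀ S : Finset (Fin d → ℝ), GeneralPosition S → (d + 1) * (Fintype.card V - 1) + 1 ≤ S.card →
      PartitionInduced T S := by
    intro S hS hc
    obtain ⟨c, h1, h2⟩ := Pool.Agent.Helper33.TVT.tree_labels (E := Fin d → ℝ) (d := d) (by simp) hd hT (genPos hS) hc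
    let e : Fin (Fintype.card V) ≃ V := (Fintype.equivFin V).symm
    let P : Fin (Fintype.card V) → Finset (Fin d → ℝ) := fun i => S.filter (fun x => c x = e i)
    have hP : ∀ i, (P i : Set (Fin d → ℝ)) = {x | x ∈ S ∧ c x = e i} := by
      intro i
      ext x
      simp only [P, mem_coe, mem_filter]
      rfl
    have hmeet : ∀ i j, i ≠ j → ((convexHull ℝ (P i : Set (Fin d → ℝ)) ∩ convexHull ℝ (P j : Set (Fin d → ℝ))).Nonempty ↔
        T.Adj (e i) (e j)) := by
      intro i j hij
      rw [hP i, hP j]
      exact h2 (e i) (e j) (fun h => hij (e.injective h))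
    have hne : ∀ i, (P i).Nonempty := by
      intro i
      obtain ⟨x, hx, hx'⟩ := h1 (e i)
      exact ⟨x, mem_filter.2 ⟨hx, hx'⟩⟩
    refine ⟨Fintype.card V, P, e, ⟨hne, ?_, ?_⟩, ?_⟩
    · intro i j hij
      rw [disjoint_left]
      intro x hx hx'
      exact hij (e.injective ((mem_filter.1 hx).2.symm.trans (mem_filter.1 hx').2))
    · intro x
      constructor
      · intro hx
        exact ⟨e.symm (c x), mem_filter.2 ⟨hx, by simp⟩⟩
      · rintro ⟨i, hi⟩
        exact (mem_filter.1 hi).1
    · intro I
      constructor
      · rintro ⟨z, hz⟩
        rw [Set.mem_iInter₂] at hz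
        by_cases hI : I.card ≤ 1
        · left
          rw [card_map]
          exact hI
        · right
          obtain ⟨i, hi, j, hj, hij⟩ := one_lt_card.1 (not_le.1 hI)
          have hadj : ∀ a ∈ I, ∀ b ∈ I, a ≠ b → T.Adj (e a) (e b) := fun a ha b hb hab =>
            (hmeet a b hab).1 ⟨z, hz a ha, hz b hb⟩
          refine ⟨e i, e j, hadj i hi j hj hij, ?_⟩
          ext v
          simp only [coe_map, Equiv.coe_toEmbedding, Set.mem_image, mem_coe, Set.mem_insert_iff, Set.mem_singleton_iff]
          constructor
          · rintro ⟨k, hk, rfl⟩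
            by_contra hcon
            rw [not_or] at hcon
            have hki : k ≠ i := fun h => hcon.1 (by rw [h])
            have hkj : k ≠ j := fun h => hcon.2 (by rw [h])
            refine hT.isAcyclic.cliqueFree le_rfl {e k, e i, e j} ?_
            rw [SimpleGraph.is3Clique_triple_iff]
            exact ⟨hadj k hk i hi hki, hadj k hk j hj hkj, hadj i hi j hj hij⟩
          · rintro (rfl | rfl)
            · exact ⟨i, hi, rfl⟩
            · exact ⟨j, hj, rfl⟩
      · rintro (hI | ⟨u, v, huv, hI⟩)
        · rw [card_map] at hI
          rcases Nat.le_one_iff_eq_zero_or_eq_one.1 hI with h0 | h0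
          · rw [card_eq_zero] at h0
            subst h0
            exact ⟨0, by simp⟩
          · obtain ⟨i, rfl⟩ := card_eq_one.1 h0
            obtain ⟨x, hx⟩ := hne i
            exact ⟨x, by simpa using subset_convexHull ℝ _ (mem_coe.2 hx)⟩
        · have hmem : ∀ k, k ∈ I ↔ e k = u ∨ e k = v := by
            intro k
            have := Set.ext_iff.1 hI (e k)
            simpa using this
          have huv' : e.symm u ≠ e.symm v := fun h => huv.ne (e.symm.injective h)
          obtain ⟨z, hz, hz'⟩ := (hmeet (e.symm u) (e.symm v) huv').2 (by simpa using huv)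
          refine ⟨z, Set.mem_iInter₂.2 fun k hk => ?_⟩
          rcases (hmem k).1 hk with h | h
          · rw [← h, Equiv.symm_apply_apply] at hz
            exact hz
          · rw [← h, Equiv.symm_apply_apply] at hz'
            exact hz'
  exact ⟨main, Nat.sInf_le fun S hS hc => main S hS hc.le⟩

end Pool.Agent.Results.MP_92efc2_co.Trees
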